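import Pool.Agent.Helper82.CSB.C4t

/-!
# The patterns `(2,1,2)` and `(3,1,0,1)` (the latter: the polynomial)
-/

namespace H50R

open H45C Equiv MvPolynomial

variable {m : ℕ}

/-- the recursion for complete symmetric polynomials, twice -/
theorem c4b_hz (j : ℕ) (a : ℤ) : hz m (j + 1) 1 * hz m (j + 1) a - hz m (j + 1) (a + 1) =
    hz m j 1 * hz m (j + 1) a - hz m j (a + 1) := by
  have h1 := hz_succ (m := m) j 1
  have h2 := hz_succ (m := m) j (a + 1)
  rw [sub_self, hz_zero_right, mul_one] at h1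
  rw [add_sub_cancel_right] at h2
  linear_combination hz m (j + 1) a * h1 - h2

theorem c4b_ne (k : Fin m) (j : ℕ) (a : ℤ) (h : j ≠ (k : ℕ) + 1) : dd1 k (hz m j a) = 0 :=
  dd1_eq_zero_of_inv k _ (pact_hz k j a h)

theorem c4b_self (k : Fin m) (j : ℕ) (a : ℤ) (h : j = (k : ℕ) + 1) :
    dd1 k (hz m j a) = hz m (j + 1) (a - 1) := by
  subst h
  exact dd1_hz k a

theorem c4b_mul (k : Fin m) (f : Pol m) (j : ℕ) (a : ℤ) (h : j ≠ (k : ℕ) + 1) :
    dd1 k (f * hz m j a) = dd1 k f * hz m j a := by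
  rw [dd1_mul, c4b_ne k j a h, mul_zero, add_zero]

theorem c4b_mul' (k : Fin m) (f : Pol m) (j : ℕ) (a : ℤ) (h : j ≠ (k : ℕ) + 1) :
    dd1 k (hz m j a * f) = hz m j a * dd1 k f :=
  dd1_mul_of_inv k _ _ (pact_hz k j a h)

/-! ## two rows -/

/-- `s_{i+a-1} ⋯ s_i s_{i+1}` -/
theorem c4b_31 (i : ℕ) (h : i + 3 ≤ m) : IsSchub (vb m [(i, 3), (i + 1, 1)])
    (hz m (i + 1) 3 * hz m (i + 2) 1 - hz m (i + 1) 4) := by
  have hw : ∀ k : Fin m, (k : ℕ) = i → IsSchub (vb m [(i, 3), (i + 1, 1)] * sg k)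
      (dd1 k (hz m (i + 1) 3 * hz m (i + 2) 1 - hz m (i + 1) 4)) := by
    intro k hk
    have e1 : vb m [(i, 3), (i + 1, 1)] * sg k = vb m [(i, 1), (i + 1, 2)] :=
      vb_mul_window 3 i (by omega) [(0, 3), (1, 1)] [(0, 1), (1, 2)] (by decide) (by decide) 0
        (by decide) (by decide) k (by omega)
    have e2 : dd1 k (hz m (i + 1) 3 * hz m (i + 2) 1 - hz m (i + 1) 4) =
        pb m [(i, 1), (i + 1, 2)] := by
      rw [dd1_sub, c4b_mul k _ _ _ (by omega), c4b_self k _ _ (by omega),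
        c4b_self k _ _ (by omega), pb_cons, pb_single, if_pos rfl, pb_single]
      have h3 := c4b_hz (m := m) (i + 1) 2
      norm_num at h3 ⊢
      linear_combination h3
    rw [e1, e2]
    exact isSchub_pb _ ⟨by norm_num, by norm_num, by norm_num, by simp only; omega⟩
  refine isSchub_weak _ _ 3 ?_ ?_ ?_ ⟨⟨i, by omega⟩, hw _ rfl⟩
  · exact (inv_vb_window 3 i (by omega) [(0, 3), (1, 1)] (by decide)).trans (by decide)
  · exact ((hz_homog (i + 1) 3).mul (hz_homog (i + 2) 1)).sub (hz_homog (i + 1) 4)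
  · intro k
    by_cases h0 : (k : ℕ) = i
    · exact .inr (hw k h0)
    · by_cases h1 : (k : ℕ) = i + 1
      · right
        have e1 : vb m [(i, 3), (i + 1, 1)] * sg k = vb m [(i, 3)] :=
          vb_mul_window 3 i (by omega) [(0, 3), (1, 1)] [(0, 3)] (by decide) (by decide) 1
            (by decide) (by decide) k (by omega)
        have e2 : dd1 k (hz m (i + 1) 3 * hz m (i + 2) 1 - hz m (i + 1) 4) = pb m [(i, 3)] := by
          rw [dd1_sub, c4b_mul' k _ _ _ (by omega), c4b_self k _ _ (by omega),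
            c4b_ne k _ _ (by omega), pb_single, sub_self, hz_zero_right, mul_one, sub_zero]
          rfl
        rw [e1, e2]
        exact isSchub_pb _ ⟨by norm_num, by simp only; omega⟩
      · left
        rw [dd1_sub, c4b_mul k _ _ _ (by omega), c4b_ne k _ _ (by omega),
          c4b_ne k _ _ (by omega), zero_mul, sub_zero]

/-- `s_{i+1} s_i s_{i+1}` -/
theorem c4b_21 (i : ℕ) (h : i + 2 ≤ m) : IsSchub (vb m [(i, 2), (i + 1, 1)])
    (hz m (i + 1) 2 * hz m (i + 2) 1 - hz m (i + 1) 3) := by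
  have h1 := isSchub_iji (m := m) i (by omega)
  have e1 : vb m [(i, 2), (i + 1, 1)] = sn m i * sn m (i + 1) * sn m i := by
    have h2 : sh 2 i h (vb 2 [(0, 2), (1, 1)]) = vb m [(i, 2), (i + 1, 1)] :=
      sh_vb 2 i h [(0, 2), (1, 1)] (by decide)
    have h3 : vb 2 [(0, 2), (1, 1)] = sn 2 0 * sn 2 1 * sn 2 0 := by decide
    have h4 : sh 2 i h (sn 2 0) = sn m i := sh_sn 2 i h 0 (by decide)
    rw [← h2, h3, map_mul, map_mul, h4, sh_sn 2 i h 1 (by decide)]
  rw [e1]
  exact h1

/-! ## `(3, 1, 0, 1)` -/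

theorem c4b_s3101 (i : ℕ) (h : i + 4 ≤ m) : IsSchub (vb m [(i, 3), (i + 1, 1), (i + 3, 1)])
    (hz m (i + 1) 3 * hz m (i + 2) 1 * hz m (i + 4) 1 - hz m (i + 1) 4 * hz m (i + 4) 1 -
      hz m (i + 1) 4 * hz m (i + 2) 1 + hz m (i + 1) 5) := by
  set P : Pol m := hz m (i + 1) 3 * hz m (i + 2) 1 * hz m (i + 4) 1 -
    hz m (i + 1) 4 * hz m (i + 4) 1 - hz m (i + 1) 4 * hz m (i + 2) 1 + hz m (i + 1) 5 with hP
  have hw : ∀ k : Fin m, (k : ℕ) = i → IsSchub (vb m [(i, 3), (i + 1, 1), (i + 3, 1)] * sg k)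
      (dd1 k P) := by
    intro k hk
    have e1 : vb m [(i, 3), (i + 1, 1), (i + 3, 1)] * sg k =
        vb m [(i, 1), (i + 1, 2), (i + 3, 1)] :=
      vb_mul_window 4 i (by omega) [(0, 3), (1, 1), (3, 1)] [(0, 1), (1, 2), (3, 1)] (by decide)
        (by decide) 0 (by decide) (by decide) k (by omega)
    have e2 : dd1 k P = pb m [(i, 1), (i + 1, 2), (i + 3, 1)] := by
      have p1 : pb m [(i, 1), (i + 1, 2), (i + 3, 1)] = hz m (i + 1) 1 *
          (hz m (i + 2) 2 * hz m (i + 4) 1 - hz m (i + 2) 3) -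
            (hz m (i + 1) 3 * hz m (i + 4) 1 - hz m (i + 1) 4) := by
        simp only [pb_cons, pb_single, if_true]
        norm_num
      rw [p1, hP, dd1_add, dd1_sub, dd1_sub, c4b_mul k _ (i + 4) _ (by omega),
        c4b_mul k _ (i + 2) _ (by omega), c4b_mul k _ (i + 4) _ (by omega),
        c4b_mul k _ (i + 2) _ (by omega), c4b_self k _ _ (by omega), c4b_self k _ _ (by omega),
        c4b_self k _ _ (by omega)]
      have h3 := c4b_hz (m := m) (i + 1) 2
      have h4 := c4b_hz (m := m) (i + 1) 3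
      norm_num at h3 h4 ⊢
      linear_combination hz m (i + 4) 1 * h3 - h4
    rw [e1, e2]
    exact isSchub_pb _ ⟨by norm_num, by norm_num, by norm_num, by norm_num, by norm_num,
      by simp only; omega⟩
  refine isSchub_weak _ _ 4 ?_ ?_ ?_ ⟨⟨i, by omega⟩, hw _ rfl⟩
  · exact (inv_vb_window 4 i (by omega) [(0, 3), (1, 1), (3, 1)] (by decide)).trans (by decide)
  · exact ((((((hz_homog (i + 1) 3).mul (hz_homog (i + 2) 1)).mul (hz_homog (i + 4) 1))).sub
      ((hz_homog (i + 1) 4).mul (hz_homog (i + 4) 1))).sub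
        ((hz_homog (i + 1) 4).mul (hz_homog (i + 2) 1))).add (hz_homog (i + 1) 5)
  · intro k
    by_cases h0 : (k : ℕ) = i
    · exact .inr (hw k h0)
    · by_cases h1 : (k : ℕ) = i + 1
      · right
        have e1 : vb m [(i, 3), (i + 1, 1), (i + 3, 1)] * sg k = vb m [(i, 3), (i + 3, 1)] :=
          vb_mul_window 4 i (by omega) [(0, 3), (1, 1), (3, 1)] [(0, 3), (3, 1)] (by decide)
            (by decide) 1 (by decide) (by decide) k (by omega)
        have e2 : dd1 k P = pb m [(i, 3), (i + 3, 1)] := by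
          have p1 : pb m [(i, 3), (i + 3, 1)] = hz m (i + 1) 3 * hz m (i + 4) 1 -
              hz m (i + 1) 4 := by
            rw [pb_cons, if_pos rfl, pb_single, pb_single]
            norm_num
          rw [p1, hP, dd1_add, dd1_sub, dd1_sub, c4b_mul k _ (i + 4) _ (by omega),
            c4b_mul' k _ (i + 1) _ (by omega), c4b_mul k _ (i + 4) _ (by omega),
            c4b_mul' k _ (i + 1) _ (by omega), c4b_self k _ _ (by omega),
            c4b_ne k _ _ (by omega), c4b_ne k _ _ (by omega), sub_self, hz_zero_right]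
          ring
        rw [e1, e2]
        exact isSchub_pb _ ⟨by norm_num, by norm_num, by norm_num, by simp only; omega⟩
      · by_cases h2 : (k : ℕ) = i + 3
        · right
          have e1 : vb m [(i, 3), (i + 1, 1), (i + 3, 1)] * sg k = vb m [(i, 3), (i + 1, 1)] :=
            vb_mul_window 4 i (by omega) [(0, 3), (1, 1), (3, 1)] [(0, 3), (1, 1)] (by decide)
              (by decide) 3 (by decide) (by decide) k (by omega)
          have e2 : dd1 k P = hz m (i + 1) 3 * hz m (i + 2) 1 - hz m (i + 1) 4 := by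
            rw [hP, dd1_add, dd1_sub, dd1_sub, mul_assoc, c4b_mul' k _ (i + 1) _ (by omega),
              c4b_mul' k _ (i + 2) _ (by omega), c4b_mul' k _ (i + 1) _ (by omega),
              c4b_mul k _ (i + 2) _ (by omega), c4b_self k _ _ (by omega),
              c4b_ne k _ _ (by omega), c4b_ne k _ _ (by omega), sub_self, hz_zero_right]
            ring
          rw [e1, e2]
          exact c4b_31 i (by omega)
        · left
          rw [hP, dd1_add, dd1_sub, dd1_sub, c4b_mul k _ (i + 4) _ (by omega),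
            c4b_mul k _ (i + 2) _ (by omega), c4b_mul k _ (i + 4) _ (by omega),
            c4b_mul k _ (i + 2) _ (by omega), c4b_ne k _ _ (by omega), c4b_ne k _ _ (by omega),
            c4b_ne k _ _ (by omega)]
          ring

/-! ## `(2, 1, 0, 1)` -/

theorem c4b_s2101 (i : ℕ) (h : i + 4 ≤ m) : IsSchub (vb m [(i, 2), (i + 1, 1), (i + 3, 1)])
    (hz m (i + 1) 2 * hz m (i + 2) 1 * hz m (i + 4) 1 - hz m (i + 1) 3 * hz m (i + 4) 1) := by
  set P : Pol m := hz m (i + 1) 2 * hz m (i + 2) 1 * hz m (i + 4) 1 -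
    hz m (i + 1) 3 * hz m (i + 4) 1 with hP
  have hw : ∀ k : Fin m, (k : ℕ) = i → IsSchub (vb m [(i, 2), (i + 1, 1), (i + 3, 1)] * sg k)
      (dd1 k P) := by
    intro k hk
    have e1 : vb m [(i, 2), (i + 1, 1), (i + 3, 1)] * sg k =
        vb m [(i, 1), (i + 1, 1), (i + 3, 1)] :=
      vb_mul_window 4 i (by omega) [(0, 2), (1, 1), (3, 1)] [(0, 1), (1, 1), (3, 1)] (by decide)
        (by decide) 0 (by decide) (by decide) k (by omega)
    have e2 : dd1 k P = pb m [(i, 1), (i + 1, 1), (i + 3, 1)] := by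
      have p1 : pb m [(i, 1), (i + 1, 1), (i + 3, 1)] = hz m (i + 1) 1 *
          (hz m (i + 2) 1 * hz m (i + 4) 1) - hz m (i + 1) 2 * hz m (i + 4) 1 := by
        simp only [pb_cons, pb_single]
        rw [if_pos trivial, if_neg (show ¬ i + 3 = i + 1 + 1 by omega),
          if_neg (show ¬ i + 3 = i + (1 + 1) by omega)]
        norm_num
      rw [p1, hP, dd1_sub, c4b_mul k _ (i + 4) _ (by omega),
        c4b_mul k _ (i + 2) _ (by omega), c4b_mul k _ (i + 4) _ (by omega),
        c4b_self k _ _ (by omega), c4b_self k _ _ (by omega)]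
      have h3 := c4b_hz (m := m) (i + 1) 1
      norm_num at h3 ⊢
      linear_combination hz m (i + 4) 1 * h3
    rw [e1, e2]
    exact isSchub_pb _ ⟨by norm_num, by norm_num, by norm_num, by norm_num, by norm_num,
      by simp only; omega⟩
  refine isSchub_weak _ _ 3 ?_ ?_ ?_ ⟨⟨i, by omega⟩, hw _ rfl⟩
  · exact (inv_vb_window 4 i (by omega) [(0, 2), (1, 1), (3, 1)] (by decide)).trans (by decide)
  · exact ((((hz_homog (i + 1) 2).mul (hz_homog (i + 2) 1)).mul (hz_homog (i + 4) 1))).sub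
      ((hz_homog (i + 1) 3).mul (hz_homog (i + 4) 1))
  · intro k
    by_cases h0 : (k : ℕ) = i
    · exact .inr (hw k h0)
    · by_cases h1 : (k : ℕ) = i + 1
      · right
        have e1 : vb m [(i, 2), (i + 1, 1), (i + 3, 1)] * sg k = vb m [(i, 2), (i + 3, 1)] :=
          vb_mul_window 4 i (by omega) [(0, 2), (1, 1), (3, 1)] [(0, 2), (3, 1)] (by decide)
            (by decide) 1 (by decide) (by decide) k (by omega)
        have e2 : dd1 k P = pb m [(i, 2), (i + 3, 1)] := by
          have p1 : pb m [(i, 2), (i + 3, 1)] = hz m (i + 1) 2 * hz m (i + 4) 1 := by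
            rw [pb_cons, if_neg (by simp), pb_single]
            norm_num
          rw [p1, hP, dd1_sub, c4b_mul k _ (i + 4) _ (by omega),
            c4b_mul' k _ (i + 1) _ (by omega), c4b_mul k _ (i + 4) _ (by omega),
            c4b_self k _ _ (by omega), c4b_ne k _ _ (by omega), sub_self, hz_zero_right]
          ring
        rw [e1, e2]
        exact isSchub_pb _ ⟨by norm_num, by norm_num, by norm_num, by simp only; omega⟩
      · by_cases h2 : (k : ℕ) = i + 3
        · right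
          have e1 : vb m [(i, 2), (i + 1, 1), (i + 3, 1)] * sg k = vb m [(i, 2), (i + 1, 1)] :=
            vb_mul_window 4 i (by omega) [(0, 2), (1, 1), (3, 1)] [(0, 2), (1, 1)] (by decide)
              (by decide) 3 (by decide) (by decide) k (by omega)
          have e2 : dd1 k P = hz m (i + 1) 2 * hz m (i + 2) 1 - hz m (i + 1) 3 := by
            rw [hP, dd1_sub, mul_assoc, c4b_mul' k _ (i + 1) _ (by omega),
              c4b_mul' k _ (i + 2) _ (by omega), c4b_mul' k _ (i + 1) _ (by omega),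
              c4b_self k _ _ (by omega), sub_self, hz_zero_right]
            ring
          rw [e1, e2]
          exact c4b_21 i (by omega)
        · left
          rw [hP, dd1_sub, c4b_mul k _ (i + 4) _ (by omega),
            c4b_mul k _ (i + 2) _ (by omega), c4b_mul k _ (i + 4) _ (by omega),
            c4b_ne k _ _ (by omega), c4b_ne k _ _ (by omega)]
          ring

/-! ## `(2, 1, 2)` -/

theorem c4b_s212 (i : ℕ) (h : i + 4 ≤ m) : IsSchub (vb m [(i, 2), (i + 1, 1), (i + 2, 2)])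
    (hz m (i + 1) 2 * (hz m (i + 2) 1 * hz m (i + 3) 2 - hz m (i + 2) 3) -
      (hz m (i + 1) 3 * hz m (i + 3) 2 - hz m (i + 1) 5)) := by
  set P : Pol m := hz m (i + 1) 2 * (hz m (i + 2) 1 * hz m (i + 3) 2 - hz m (i + 2) 3) -
      (hz m (i + 1) 3 * hz m (i + 3) 2 - hz m (i + 1) 5) with hP
  have hw : ∀ k : Fin m, (k : ℕ) = i → IsSchub (vb m [(i, 2), (i + 1, 1), (i + 2, 2)] * sg k)
      (dd1 k P) := by
    intro k hk
    have e1 : vb m [(i, 2), (i + 1, 1), (i + 2, 2)] * sg k =
        vb m [(i, 1), (i + 1, 1), (i + 2, 2)] :=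
      vb_mul_window 4 i (by omega) [(0, 2), (1, 1), (2, 2)] [(0, 1), (1, 1), (2, 2)] (by decide)
        (by decide) 0 (by decide) (by decide) k (by omega)
    have e2 : dd1 k P = pb m [(i, 1), (i + 1, 1), (i + 2, 2)] := by
      have p1 : pb m [(i, 1), (i + 1, 1), (i + 2, 2)] = hz m (i + 1) 1 *
          (hz m (i + 2) 1 * hz m (i + 3) 2 - hz m (i + 2) 3) -
            (hz m (i + 1) 2 * hz m (i + 3) 2 - hz m (i + 1) 4) := by
        simp only [pb_cons, pb_single, if_true]
        norm_num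
      have d1 : dd1 k (hz m (i + 2) 1 * hz m (i + 3) 2 - hz m (i + 2) 3) = 0 := by
        rw [dd1_sub, c4b_mul k _ (i + 3) _ (by omega), c4b_ne k _ _ (by omega),
          c4b_ne k _ _ (by omega)]
        ring
      rw [p1, hP, dd1_sub, dd1_sub, dd1_mul, d1, c4b_mul k _ (i + 3) _ (by omega),
        c4b_self k _ _ (by omega), c4b_self k _ _ (by omega), c4b_self k _ _ (by omega)]
      have h3 := c4b_hz (m := m) (i + 1) 1
      have h4 := c4b_hz (m := m) (i + 1) 3
      norm_num at h3 h4 ⊢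
      linear_combination hz m (i + 3) 2 * h3 - h4
    rw [e1, e2]
    exact isSchub_pb _ ⟨by norm_num, by norm_num, by norm_num, by norm_num, by norm_num,
      by simp only; omega⟩
  refine isSchub_weak _ _ 4 ?_ ?_ ?_ ⟨⟨i, by omega⟩, hw _ rfl⟩
  · exact (inv_vb_window 4 i (by omega) [(0, 2), (1, 1), (2, 2)] (by decide)).trans (by decide)
  · exact ((hz_homog (i + 1) 2).mul (((hz_homog (i + 2) 1).mul (hz_homog (i + 3) 2)).sub
      (hz_homog (i + 2) 3))).sub (((hz_homog (i + 1) 3).mul (hz_homog (i + 3) 2)).sub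
        (hz_homog (i + 1) 5))
  · intro k
    by_cases h0 : (k : ℕ) = i
    · exact .inr (hw k h0)
    · by_cases h2 : (k : ℕ) = i + 2
      · right
        have e1 : vb m [(i, 2), (i + 1, 1), (i + 2, 2)] * sg k =
            vb m [(i, 2), (i + 1, 1), (i + 3, 1)] :=
          vb_mul_window 4 i (by omega) [(0, 2), (1, 1), (2, 2)] [(0, 2), (1, 1), (3, 1)]
            (by decide) (by decide) 2 (by decide) (by decide) k (by omega)
        have e2 : dd1 k P = hz m (i + 1) 2 * hz m (i + 2) 1 * hz m (i + 4) 1 -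
            hz m (i + 1) 3 * hz m (i + 4) 1 := by
          rw [hP, dd1_sub, dd1_sub, c4b_mul' k _ (i + 1) _ (by omega), dd1_sub,
            c4b_mul' k _ (i + 2) _ (by omega), c4b_mul' k _ (i + 1) _ (by omega),
            c4b_self k _ _ (by omega), c4b_ne k _ _ (by omega), c4b_ne k _ _ (by omega)]
          norm_num
          ring
        rw [e1, e2]
        exact c4b_s2101 i h
      · left
        by_cases h1 : (k : ℕ) = i + 1
        · rw [hP, dd1_sub, dd1_sub, c4b_mul' k _ (i + 1) _ (by omega), dd1_sub,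
            c4b_mul k _ (i + 3) _ (by omega), c4b_mul k _ (i + 3) _ (by omega),
            c4b_self k _ _ (by omega), c4b_self k _ _ (by omega), c4b_ne k _ _ (by omega),
            c4b_ne k _ _ (by omega), show (1 : ℤ) - 1 = 0 by norm_num, hz_zero_right,
            show (3 : ℤ) - 1 = 2 by norm_num]
          ring
        · rw [hP, dd1_sub, dd1_sub, c4b_mul' k _ (i + 1) _ (by omega), dd1_sub,
            c4b_mul k _ (i + 3) _ (by omega), c4b_mul k _ (i + 3) _ (by omega),
            c4b_ne k _ _ (by omega), c4b_ne k _ _ (by omega), c4b_ne k _ _ (by omega),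
            c4b_ne k _ _ (by omega)]
          ring

/-! ## positivity -/

theorem EE_212 (i : ℕ) (h : i + 4 ≤ m) : EE (vb m [(i, 2), (i + 1, 1), (i + 2, 2)]) := by
  refine ⟨_, c4b_s212 i h, ?_⟩
  intro x
  apply NN_of_Om
  have h1 : Om m (act m (hz m (i + 1) 2 * (hz m (i + 2) 1 * hz m (i + 3) 2 - hz m (i + 2) 3) -
      (hz m (i + 1) 3 * hz m (i + 3) 2 - hz m (i + 1) 5)) (bas x)) =
      rib [((Sj m (i + 1), (2 : ℤ)) : Bl (Fin (m + 1))), (Sj m (i + 2), 1), (Sj m (i + 3), 2)]
        (wd (om x)) := by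
    simp only [map_sub, LinearMap.sub_apply, act_mul_apply, Om_act_hz, rib_cons, rib_single,
      Om_bas, Module.End.mul_apply]
    norm_num
  rw [h1]
  refine rib_pos (X := Finset.univ)
    (L := [((Sj m (i + 1), (2 : ℤ)) : Bl (Fin (m + 1))), (Sj m (i + 2), 1), (Sj m (i + 3), 2)])
    ⟨?_, ?_, ?_, ?_, ?_, ?_, trivial⟩ ?_ (wd_mem _ (om_nodup x) (om_toFinset x)) (WN.wd _)
  · show Sj m (i + 1) ⊆ Sj m (i + 3)
    exact Sj_mono (by omega)
  · show (1 : ℤ) ≤ 2
    norm_num
  · have h := card_Sj_sdiff (i + 1) (i + 3) (Finset.univ : Finset (Fin (m + 1)))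
    show (((Sj m (i + 3) \ Sj m (i + 1)) ∩ Finset.univ).card : ℤ) ≤ 2 + ((1 : ℕ) : ℤ)
    push_cast
    omega
  · show Sj m (i + 2) ⊆ Sj m (i + 3)
    exact Sj_mono (by omega)
  · show (1 : ℤ) ≤ 1
    exact le_rfl
  · have h := card_Sj_sdiff (i + 2) (i + 3) (Finset.univ : Finset (Fin (m + 1)))
    show (((Sj m (i + 3) \ Sj m (i + 2)) ∩ Finset.univ).card : ℤ) ≤ 1 + ((0 : ℕ) : ℤ)
    push_cast
    omega
  · show (1 : ℤ) ≤ 2
    norm_num

end H50R
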